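import Pool.Agent.L5helper19.GS.Five

/-!
# The conjecture of Galkin and Shinder for cubic fourfolds with many Hodge classes

Let `X` be a smooth cubic fourfold such that the group `A(X)` of the Hodge classes in `H^4(X, ℤ)` has
rank at least five (this is a condition of codimension four on `X`). It is proved that the following
conditions are equivalent.

1. `F(X)` is birational to `S^[2]` for a K3 surface `S` (the condition of Galkin and Shinder), in the
   numerical form of Addington: `X` is in `C_d` for some `d = (2 n ^ 2 + 2 n + 2) / a ^ 2`.
2. `X` has an associated K3 surface (the condition of Hassett and of Kuznetsov): `X` is in `C_d` for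
   some admissible `d`.
3. Congruences: some Hodge class has a discriminant not divisible by `4`; there is a Hodge class `v`
   such that `v.h` is not divisible by `3` or `v.v ≡ 2` modulo `3`; and for every prime number
   `p > 2`, `p ≡ 2` modulo `3`, there is a Hodge class with a discriminant not divisible by `p`.

So the conjecture of Galkin and Shinder and the conjecture of Hassett and Kuznetsov are equivalent for
these `X`, and their condition can be read off from the lattice modulo `4`, `9` and the primes. In
general 1. is stronger than 2. (Addington).

Idea of the proof. By the theorem of Meyer there is a Hodge class `A` with `disc A = 2 k ^ 2`, `k > 0`.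
For a Hodge class `v` put `ω = 3 A.v - (A.h)(v.h)`, `e = disc v`. If `t = ω z - k u` is not zero and
`4 t` divides `u ^ 2 + 3 - 2 e z ^ 2`, then for a suitable integer `y` twice the discriminant of
`y A + z v` is `x ^ 2 + 3`, `x = u + 2 k y`. Let `c = 2 k ^ 2 e - ω ^ 2`. One chooses `v` and `u` modulo powers of the
primes which divide `6 k` by the congruences 3. and the lemma of Hensel, and then (here two more
Hodge classes orthogonal to `A` and `v` are used) such that `3 c` has a prime divisor of odd
multiplicity which does not divide `6 k`. By the theorem of Dirichlet and the quadratic reciprocity law
one can take for `t` a product of primes which divide `6 k` and of one more prime `q` such that `3 c` is a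
square modulo `q`, and this gives `z` modulo `q`.
-/

set_option autoImplicit false

namespace Pool.Agent.Results.MP_4d0966_ag.RankFive

open Pool.Agent.Y95.Q Pool.Agent.L5helper19.GS

/-- **Galkin and Shinder's condition, Hassett and Kuznetsov's condition and congruences are
equivalent if the group of Hodge classes has rank at least five.** -/
theorem result {X : CubicFourfold} {H : H4 X} (hH : H.IsCohomology) (hr : 5 ≤ H.rank) :
    (HilbertSquare H ↔ AssociatedK3 H) ∧ (HilbertSquare H ↔ Congruences H) := by
  have h1 : HilbertSquare H → AssociatedK3 H := fun h => h.associated hH
  have h2 : AssociatedK3 H → Congruences H := fun h => h.congruences hH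
  have h3 : Congruences H → HilbertSquare H := rank_five hH hr
  exact ⟨⟨h1, fun h => h3 (h2 h)⟩, fun h => h2 (h1 h), h3⟩

end Pool.Agent.Results.MP_4d0966_ag.RankFive
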