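import Pool.Agent.L5helper19.GS.Sym8

/-!
# Cubic fourfolds with a symplectic automorphism of order greater than two

Let `X` be a smooth cubic fourfold with an automorphism `σ` which acts trivially on `H^{3,1}(X)` (a
symplectic automorphism) such that `σ ^ 2` is not the identity. It is proved that `F(X)` is birational
to `S^[2]` for a K3 surface `S` (the condition of Galkin and Shinder), in the numerical form of
Addington: `X` is in `C_d` for some `d = (2 n ^ 2 + 2 n + 2) / a ^ 2`. So by the conjecture all these `X`
should be rational. The automorphism enters only by its action on `H^4(X, ℤ)`; by the theorem of
Torelli (Voisin) every isometry of `H^4(X, ℤ)` which fixes `h` and `H^{3,1}` comes from an automorphism.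

That these `X` have an associated K3 surface is known (Ouchi, Laza and Zheng). The condition of Galkin
and Shinder is stronger in general. The theorem does not hold for involutions: the general cubic
fourfold with a symplectic involution has the lattice `A(X) = ⟨3⟩ ⊕ E_8(2)`, where all discriminants are
divisible by `4`.

Idea of the proof. A power of `σ` has order four or an odd prime order `p`. Let `S` be the lattice of
the `v` with `v + σ v + ... + σ ^ (p - 1) v = 0` (with `σ ^ 2 v = - v` if the order is four). It consists of
Hodge classes orthogonal to `h`; so it is even, positive definite, without vectors of square `2`. As
`H^4(X, ℤ)` is unimodular, the form on `S` is not degenerate modulo the primes `l ≠ p` (`l ≠ 2` for order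
four). With the vectors of minimal length in `S` one shows that it is not zero modulo `p` (and that
some class has square `2` modulo `4` if the order is four), that it has the value `2` modulo `3`, and
that `S` has rank at least four (`A_2` has vectors of square `2`). So the congruences in the theorem on
the `X` with rank of `A(X)` at least five (file RankFive for this problem) hold.
-/

set_option autoImplicit false

namespace Pool.Agent.Results.MP_4d0966_ag.SymplecticAutomorphisms

open Pool.Agent.Y95.Q Pool.Agent.L5helper19.GS

/-- **The variety of lines of a cubic fourfold with a symplectic automorphism of order greater than
two is birational to the Hilbert square of a K3 surface.** -/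
theorem result {X : CubicFourfold} {H : H4 X} (hH : H.IsCohomology)
    {σ : Module.End ℤ (Fin 23 → ℤ)} (hσ : IsSymplectic H σ) (h2 : σ ^ 2 ≠ 1) :
    HilbertSquare H ∧ AssociatedK3 H ∧ 5 ≤ H.rank :=
  symplectic_final hH hσ h2

end Pool.Agent.Results.MP_4d0966_ag.SymplecticAutomorphisms
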