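import Pool.Agent.L5helper19.GS.Inv4

/-!
# Cubic fourfolds with a symplectic involution

Let `X` be a smooth cubic fourfold with a symplectic involution `σ` (an automorphism of order two which
acts trivially on `H^{3,1}(X)`). It is proved that the following conditions are equivalent.

1. `F(X)` is birational to `S^[2]` for a K3 surface `S` (the condition of Galkin and Shinder), in the
   numerical form of Addington.
2. `X` has an associated K3 surface (the condition of Hassett and of Kuznetsov).
3. `X` is in a Hassett divisor `C_d` with `d ≡ 2` modulo `4`.

Moreover 1., 2., 3. hold if `σ` is not the only symplectic automorphism different from the identity. So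
with the result on the automorphisms of order greater than two (file SymplecticAutomorphisms for this
problem) all cubic fourfolds with at least three symplectic automorphisms satisfy the condition of
Galkin and Shinder. For a very general `X` with a symplectic involution the conditions do not hold: the
lattice is `A(X) = ⟨3⟩ ⊕ E_8(2)`, and all discriminants are divisible by `4`.

Idea of the proof. Let `S` be the lattice of the `v` with `σ v = - v`. It consists of Hodge classes
orthogonal to `h`, and for every `x` in `H^4(X, ℤ)` the functional `2 v.x` on `S` is the pairing with the
element `x - σ x` of `S`. So the discriminant of `S` divides `2 ^ r`, `r` the rank of `S`. By the bound of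
Hermite for ternary forms `r ≥ 4`, as `S` has no vectors of square `2`. So the rank of `A(X)` is at least
five, and the congruences of the result RankFive for this problem at the odd primes are satisfied.
Suppose now that `τ` is another symplectic involution which commutes with `σ`, and that all squares of
the Hodge classes orthogonal to `h` are divisible by `4`. Then the three lattices of the `v` on which
the group of order four acts by a character `≠ 1` are, with the form divided by two, even, unimodular
and positive definite. So their ranks are divisible by eight (Gauss sums). At least two of them are not
zero, and for one of the three involutions both are contained in the lattice of the `v` with `g v = - v`.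
This lattice has rank at least 16; but modulo two it is totally isotropic in the nondegenerate space
`H^4(X, ℤ) / 2` of dimension 23, a contradiction.
-/

set_option autoImplicit false

namespace Pool.Agent.Results.MP_4d0966_ag.SymplecticInvolutions

open Pool.Agent.Y95.Q Pool.Agent.L5helper19.GS

/-- **Galkin and Shinder's condition for cubic fourfolds with a symplectic involution.** -/
theorem result {X : CubicFourfold} {H : H4 X} (hH : H.IsCohomology)
    {σ : Module.End ℤ (Fin 23 → ℤ)} (hσ : IsSymplectic H σ) (h1 : σ ≠ 1) (h2 : σ ^ 2 = 1) :
    5 ≤ H.rank ∧ (HilbertSquare H ↔ AssociatedK3 H) ∧
    (HilbertSquare H ↔ ∃ d, d % 4 = 2 ∧ InDivisor H d) ∧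
    ((∃ τ, IsSymplectic H τ ∧ τ ≠ 1 ∧ τ ≠ σ) → HilbertSquare H) :=
  involution_final hH hσ h1 h2

end Pool.Agent.Results.MP_4d0966_ag.SymplecticInvolutions
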