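import Pool.Agent.L5helper19.GS.Main4

/-!
# The conjecture of Galkin and Shinder on the divisors `C_d` with `d = 2 k ^ 2`

Let `X` be a smooth cubic fourfold with a Hodge class `A` of discriminant `2 k ^ 2`, `k ≠ 0` (so `X` is
in `C_d` for `d = 2 k' ^ 2`, `k'` a divisor of `k`; for `k = 2` this holds for the cubic fourfolds which
contain a plane). Let `ρ` be the rank of the group `A(X)` of Hodge classes. Suppose that `ρ ≥ 4`, or that
for every prime divisor `p ≡ 1` modulo `12` of `k` there is a Hodge class with a discriminant which is
not divisible by `p` (no condition if `k` has no such prime divisor, for instance for `k ≤ 12`). It is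
proved that the following conditions are equivalent.

1. `F(X)` is birational to `S^[2]` for a K3 surface `S` (the condition of Galkin and Shinder, in the
   numerical form of Addington).
2. `ρ ≥ 3` and `X` has an associated K3 surface (the condition of Hassett and of Kuznetsov).
3. `ρ ≥ 3` and the congruences hold: some Hodge class has a discriminant not divisible by `4`; there is
   a Hodge class `v` such that `v.h` is not divisible by `3` or `v.v ≡ 2` modulo `3`; for every prime
   number `p > 2`, `p ≡ 2` modulo `3`, some Hodge class has a discriminant not divisible by `p`. (As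
   the discriminant of `A` is `2 k ^ 2`, only the prime divisors of `k` matter here.)

If all prime divisors of `k` are congruent to `7` modulo `12` (for instance if `X` is in `C_98`), then 1. is
equivalent to `ρ ≥ 3`.

The condition on the primes `p ≡ 1` modulo `12` cannot be dropped for `ρ = 3`: a computation shows
that for the lattice with the discriminant form `338 y ^ 2 + 78 z ^ 2` (`k = 13`) condition 2. holds and
1. does not hold.

Idea of the proof. For a Hodge class `v` put `ω = 3 A.v - (A.h)(v.h)`, `e = disc v`. If
`t = ω z - k u` is not zero and `4 t` divides `u ^ 2 + 3 - 2 e z ^ 2`, then for a suitable integer `y` twice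
the discriminant of `y A + z v` is `x ^ 2 + 3`, `x = u + 2 k y`. One chooses `v` and `u` modulo powers
of the primes which divide `6 k` and takes for `t` a product of these primes and of one more prime `q`
such that `3 (2 k ^ 2 e - ω ^ 2)` is a square modulo `q` (Dirichlet). By the reciprocity law the symbol
depends only on the local choices if the number `3 (2 k ^ 2 e - ω ^ 2)` is, up to squares, a product of
primes which divide `6 k`. Then one can change its sign by another choice at one of these primes: at
`p ≡ 3` modulo `4` by `-v`, at `2` and at `p ≡ 1` modulo `4` by points on the conic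
`u ^ 2 + 3 = 2 e z ^ 2` (this is where the condition for `p ≡ 1` modulo `12` is used).
-/

set_option autoImplicit false

namespace Pool.Agent.Results.MP_4d0966_ag.TwiceSquares

open Pool.Agent.Y95.Q Pool.Agent.L5helper19.GS

/-- **Galkin and Shinder's condition on the divisors with discriminant `2 k ^ 2`.** -/
theorem result {X : CubicFourfold} {H : H4 X} (hH : H.IsCohomology) {A : Fin 23 → ℤ}
    (hA : H.IsHodge A) {k : ℤ} (hk : k ≠ 0) (hd : H.disc A = 2 * k ^ 2)
    (h : 4 ≤ H.rank ∨ ∀ p : ℕ, p.Prime → p % 12 = 1 → (p : ℤ) ∣ k →
      ∃ v, H.IsHodge v ∧ ¬ (p : ℤ) ∣ H.disc v) :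
    (HilbertSquare H ↔ 3 ≤ H.rank ∧ AssociatedK3 H) ∧
    (HilbertSquare H ↔ 3 ≤ H.rank ∧ Congruences H) ∧
    ((∀ p : ℕ, p.Prime → (p : ℤ) ∣ k → p % 12 = 7) → (HilbertSquare H ↔ 3 ≤ H.rank)) :=
  divisors hH hk hA hd h

end Pool.Agent.Results.MP_4d0966_ag.TwiceSquares
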